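import Mathlib
import Pool.Agent.H21.UC.Stm

set_option autoImplicit false

/-!
# The choice of the parameters: proof of `S_NUM2`
-/

namespace Pool.Agent.H10.UC

open Finset Filter Real

/-- polynomials are smaller than exponentials -/
theorem ev_pow (k : ℕ) (C : ℝ) {e : ℝ} (he : 0 < e) :
    ∀ᶠ y : ℝ in atTop, C * y ^ k ≤ Real.exp (e * y) := by
  have h := (isLittleO_pow_exp_pos_mul_atTop (k := k) he).bound
    (show (0 : ℝ) < 1 / (|C| + 1) by positivity)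
  filter_upwards [h, eventually_ge_atTop 0] with y hy hy0
  rw [Real.norm_of_nonneg (pow_nonneg hy0 k), Real.norm_of_nonneg (Real.exp_pos _).le] at hy
  have h1 : C * y ^ k ≤ (|C| + 1) * y ^ k :=
    mul_le_mul_of_nonneg_right (by linarith [le_abs_self C]) (pow_nonneg hy0 k)
  have h2 : (|C| + 1) * y ^ k ≤ (|C| + 1) * (1 / (|C| + 1) * Real.exp (e * y)) :=
    mul_le_mul_of_nonneg_left hy (by positivity)
  have h3 : (|C| + 1) * (1 / (|C| + 1) * Real.exp (e * y)) = Real.exp (e * y) := by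
    field_simp
  linarith

/-- `C y exp(-e y) ≤ 1` eventually -/
theorem ev_one (k : ℕ) (C : ℝ) {e : ℝ} (he : 0 < e) :
    ∀ᶠ y : ℝ in atTop, C * y ^ k * Real.exp (-(e * y)) ≤ 1 := by
  filter_upwards [ev_pow k C he] with y hy
  calc C * y ^ k * Real.exp (-(e * y)) ≤ Real.exp (e * y) * Real.exp (-(e * y)) :=
        mul_le_mul_of_nonneg_right hy (Real.exp_pos _).le
    _ = 1 := by rw [← Real.exp_add, add_neg_cancel, Real.exp_zero]

/-- the total loss factor -/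
noncomputable def Phi (μ : ℝ) : ℝ :=
  (1 + μ) ^ 4 * (1 + 3 * μ) / ((1 - μ - μ ^ 2) * (1 - μ / 2) * (1 - μ) ^ 4)

theorem exists_N (ε : ℝ) (hε : 0 < ε) : ∃ N : ℕ, 4 ≤ N ∧ Phi (1 / (N : ℝ)) ≤ 1 + ε / 2 := by
  have h0 : ContinuousAt Phi 0 := by
    unfold Phi
    refine ContinuousAt.div (by fun_prop) (by fun_prop) (by norm_num)
  have h1 : Tendsto (fun n : ℕ => Phi (1 / (n : ℝ))) atTop (nhds (Phi 0)) :=
    h0.tendsto.comp tendsto_one_div_atTop_nhds_zero_nat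
  have h2 : Phi 0 < 1 + ε / 2 := by
    unfold Phi
    norm_num
    exact hε
  obtain ⟨N, hN⟩ := ((h1.eventually_le_const h2).and (eventually_ge_atTop 4)).exists
  exact ⟨N, hN.2, hN.1⟩

/-- condition (4) -/
theorem cond4 {t s N : ℕ} (ht : 1 ≤ t) (hN : 1 ≤ N) {μ y : ℝ} (hμ0 : 0 < μ) (hμ1 : μ ≤ 1)
    (hy : 1 ≤ y) {S : ℕ} (hS1 : 1 ≤ S) (hS : (S : ℝ) ≤ 16 * N ^ 2 * y)
    (e5 : 2 * (4 ^ (N + 2) * ((s : ℝ) + t ^ 2) * (16 * N ^ 2) * (128 * N ^ 2) ^ (t ^ 2)) *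
      y ^ (1 + t ^ 2) * exp (-(μ / 2 * y)) ≤ 1) :
    2 * (S * (((s : ℝ) + t ^ 2) * exp ((1 - μ) * y) * ((1 + μ) * (2 * exp y)) ^ (2 * t - 1))) *
      (2 * (exp y / exp ((1 - μ / (2 * (N + 1))) * y) + 1)) ^ (N + 1) <
      2 * exp y ^ 2 * ((1 + μ) * (2 * exp y)) ^ (2 * t - 2) * (1 / (8 * (S : ℝ))) ^ (t ^ 2) := by
  have hSp : (0 : ℝ) < S := by exact_mod_cast hS1
  have hNp : (0 : ℝ) < N := by exact_mod_cast hN
  have hyp : 0 < y := by linarith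
  have htp : (1 : ℝ) ≤ t := by exact_mod_cast ht
  obtain ⟨d, hd⟩ : ∃ d : ℝ, d = exp y := ⟨_, rfl⟩
  have hdp : 0 < d := by rw [hd]; exact exp_pos _
  obtain ⟨E, hE⟩ : ∃ E : ℝ, E = (1 + μ) * (2 * d) := ⟨_, rfl⟩
  have hEp : 0 < E := by rw [hE]; positivity
  have hE4 : E ≤ 4 * d := by rw [hE]; nlinarith
  have hpow : E ^ (2 * t - 1) = E ^ (2 * t - 2) * E := by
    rw [← pow_succ]; congr 1; omega
  have hM : exp ((1 - μ) * y) = d * exp (-(μ * y)) := by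
    rw [hd, ← exp_add]; ring_nf
  have hdB : exp y / exp ((1 - μ / (2 * (N + 1))) * y) = exp (μ / (2 * (N + 1)) * y) := by
    rw [← exp_sub]; ring_nf
  have h1 : 1 ≤ exp (μ / (2 * (N + 1)) * y) := Real.one_le_exp (by positivity)
  have h2 : (2 * (exp (μ / (2 * (N + 1)) * y) + 1)) ^ (N + 1) ≤ 4 ^ (N + 1) * exp (μ / 2 * y) := by
    calc (2 * (exp (μ / (2 * (N + 1)) * y) + 1)) ^ (N + 1) ≤
          (4 * exp (μ / (2 * (N + 1)) * y)) ^ (N + 1) :=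
          pow_le_pow_left₀ (by positivity) (by linarith) _
      _ = 4 ^ (N + 1) * exp (((N + 1 : ℕ) : ℝ) * (μ / (2 * (N + 1)) * y)) := by
          rw [mul_pow, exp_nat_mul]
      _ = 4 ^ (N + 1) * exp (μ / 2 * y) := by
          congr 2
          push_cast
          field_simp
  have h3 : exp (-(μ * y)) * exp (μ / 2 * y) = exp (-(μ / 2 * y)) := by
    rw [← exp_add]; ring_nf
  have hst : (0 : ℝ) < (s : ℝ) + t ^ 2 := by positivity
  have h4 : (4 : ℝ) ^ (N + 2) * ((s : ℝ) + t ^ 2) * S * exp (-(μ / 2 * y)) <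
      (1 / (8 * (S : ℝ))) ^ (t ^ 2) := by
    rw [div_pow, one_pow, lt_div_iff₀ (by positivity)]
    have h5 : (S : ℝ) * (8 * S) ^ (t ^ 2) ≤ (16 * N ^ 2) * (128 * N ^ 2) ^ (t ^ 2) * y ^ (1 + t ^ 2) := by
      calc (S : ℝ) * (8 * S) ^ (t ^ 2) ≤ (16 * N ^ 2 * y) * (128 * N ^ 2 * y) ^ (t ^ 2) := by
            refine mul_le_mul hS (pow_le_pow_left₀ (by positivity) (by linarith) _) (by positivity)
              (by positivity)
        _ = _ := by rw [mul_pow (128 * (N : ℝ) ^ 2) y, pow_add y 1]; ring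
    calc (4 : ℝ) ^ (N + 2) * ((s : ℝ) + t ^ 2) * S * exp (-(μ / 2 * y)) * (8 * S) ^ (t ^ 2) =
          (4 : ℝ) ^ (N + 2) * ((s : ℝ) + t ^ 2) * exp (-(μ / 2 * y)) *
            ((S : ℝ) * (8 * S) ^ (t ^ 2)) := by ring
      _ ≤ (4 : ℝ) ^ (N + 2) * ((s : ℝ) + t ^ 2) * exp (-(μ / 2 * y)) *
            ((16 * N ^ 2) * (128 * N ^ 2) ^ (t ^ 2) * y ^ (1 + t ^ 2)) :=
          mul_le_mul_of_nonneg_left h5 (by positivity)
      _ = (2 * (4 ^ (N + 2) * ((s : ℝ) + t ^ 2) * (16 * N ^ 2) * (128 * N ^ 2) ^ (t ^ 2)) *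
            y ^ (1 + t ^ 2) * exp (-(μ / 2 * y))) / 2 := by ring
      _ ≤ 1 / 2 := by linarith
      _ < 1 := by norm_num
  rw [hdB, hM, ← hd, ← hE, hpow]
  calc 2 * (S * (((s : ℝ) + t ^ 2) * (d * exp (-(μ * y))) * (E ^ (2 * t - 2) * E))) *
        (2 * (exp (μ / (2 * (N + 1)) * y) + 1)) ^ (N + 1) ≤
        2 * (S * (((s : ℝ) + t ^ 2) * (d * exp (-(μ * y))) * (E ^ (2 * t - 2) * (4 * d)))) *
        (4 ^ (N + 1) * exp (μ / 2 * y)) := by
        refine mul_le_mul ?_ h2 (by positivity) (by positivity)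
        refine mul_le_mul_of_nonneg_left ?_ (by norm_num)
        refine mul_le_mul_of_nonneg_left ?_ hSp.le
        refine mul_le_mul_of_nonneg_left ?_ (by positivity)
        exact mul_le_mul_of_nonneg_left hE4 (by positivity)
    _ = 2 * d ^ 2 * E ^ (2 * t - 2) * ((4 : ℝ) ^ (N + 2) * ((s : ℝ) + t ^ 2) * S *
          (exp (-(μ * y)) * exp (μ / 2 * y))) := by ring
    _ < 2 * d ^ 2 * E ^ (2 * t - 2) * (1 / (8 * (S : ℝ))) ^ (t ^ 2) := by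
        rw [h3]
        exact mul_lt_mul_of_pos_left h4 (by positivity)

/-- condition (8) -/
theorem cond8 {N : ℕ} (hN : 1 ≤ N) {μ y X : ℝ} (hμ0 : 0 < μ)
    (hy : 1 ≤ y) {S : ℕ} (hS : (S : ℝ) ≤ 16 * N ^ 2 * y) (hμ : μ * N = 1)
    (hX : X ≤ 1 - μ - μ ^ 2)
    (e6 : 138 * (N : ℝ) ^ 5 * y ^ 4 ≤ exp (μ * y)) :
    4 * exp (-(μ * ((1 - μ) * exp y - X * exp y) / (exp ((1 - μ) * y) * y ^ 2))) *
        ((⌊exp y⌋₊ + 1) ^ (2 * (2 * S + 2)) : ℕ) ≤ 1 := by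
  have hNp : (1 : ℝ) ≤ N := by exact_mod_cast hN
  have hyp : 0 < y := by linarith
  have hM : exp ((1 - μ) * y) = exp y * exp (-(μ * y)) := by
    rw [← exp_add]; ring_nf
  have hMM : exp (-(μ * y)) * exp (μ * y) = 1 := by
    rw [← exp_add, neg_add_cancel, exp_zero]
  have hdp : 0 < exp y := exp_pos _
  have hmp : 0 < exp (-(μ * y)) := exp_pos _
  have h2 : μ ^ 3 * exp (μ * y) / y ^ 2 ≤
      μ * ((1 - μ) * exp y - X * exp y) / (exp ((1 - μ) * y) * y ^ 2) := by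
    have h21 : μ ^ 3 * exp (μ * y) / y ^ 2 = μ * (μ ^ 2 * exp y) / (exp ((1 - μ) * y) * y ^ 2) := by
      rw [hM, div_eq_div_iff (by positivity) (by positivity)]
      calc μ ^ 3 * exp (μ * y) * (exp y * exp (-(μ * y)) * y ^ 2) =
            μ ^ 3 * exp y * y ^ 2 * (exp (-(μ * y)) * exp (μ * y)) := by ring
        _ = _ := by rw [hMM]; ring
    rw [h21]
    refine div_le_div_of_nonneg_right ?_ (by positivity)
    refine mul_le_mul_of_nonneg_left ?_ hμ0.le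
    nlinarith
  have h4 : ((⌊exp y⌋₊ : ℝ) + 1) ≤ exp (y + 1) := by
    have h5 : (⌊exp y⌋₊ : ℝ) ≤ exp y := Nat.floor_le (exp_pos _).le
    have h6 : 1 ≤ exp y := Real.one_le_exp (by linarith)
    have h7 : (2 : ℝ) ≤ exp 1 := by linarith [Real.add_one_le_exp (1 : ℝ)]
    rw [exp_add]
    nlinarith
  have h5 : (((⌊exp y⌋₊ + 1) ^ (2 * (2 * S + 2)) : ℕ) : ℝ) ≤
      exp ((y + 1) * (4 * S + 4)) := by
    push_cast
    calc ((⌊exp y⌋₊ : ℝ) + 1) ^ (2 * (2 * S + 2)) ≤ exp (y + 1) ^ (2 * (2 * S + 2)) :=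
          pow_le_pow_left₀ (by positivity) h4 _
      _ = exp (((2 * (2 * S + 2) : ℕ) : ℝ) * (y + 1)) := by rw [exp_nat_mul]
      _ ≤ _ := by
          rw [exp_le_exp]
          push_cast
          nlinarith
  have h6 : (4 : ℝ) ≤ exp 2 := by
    have h7 : (2 : ℝ) ≤ exp 1 := by linarith [Real.add_one_le_exp (1 : ℝ)]
    have h8 : exp (2 : ℝ) = exp 1 * exp 1 := by rw [← exp_add]; norm_num
    rw [h8]; nlinarith
  have h7 : 2 + (y + 1) * (4 * S + 4) ≤ μ ^ 3 * exp (μ * y) / y ^ 2 := by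
    rw [le_div_iff₀ (by positivity)]
    have hNy : (1 : ℝ) ≤ N ^ 2 * y := by nlinarith
    have h8 : 2 + (y + 1) * (4 * (S : ℝ) + 4) ≤ 138 * N ^ 2 * y ^ 2 := by
      have h81 : 4 * (S : ℝ) + 4 ≤ 68 * (N ^ 2 * y) := by linarith
      have h82 : (y + 1) * (4 * (S : ℝ) + 4) ≤ (2 * y) * (68 * (N ^ 2 * y)) :=
        mul_le_mul (by linarith) h81 (by positivity) (by positivity)
      have h83 : 1 ≤ N ^ 2 * y * y := by nlinarith
      nlinarith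
    have h9 : μ ^ 3 * (138 * (N : ℝ) ^ 5 * y ^ 4) = 138 * N ^ 2 * y ^ 2 * y ^ 2 := by
      calc μ ^ 3 * (138 * (N : ℝ) ^ 5 * y ^ 4) = 138 * N ^ 2 * y ^ 4 * (μ * N) ^ 3 := by ring
        _ = _ := by rw [hμ]; ring
    calc (2 + (y + 1) * (4 * (S : ℝ) + 4)) * y ^ 2 ≤ 138 * N ^ 2 * y ^ 2 * y ^ 2 :=
          mul_le_mul_of_nonneg_right h8 (by positivity)
      _ = μ ^ 3 * (138 * (N : ℝ) ^ 5 * y ^ 4) := h9.symm
      _ ≤ μ ^ 3 * exp (μ * y) := mul_le_mul_of_nonneg_left e6 (by positivity)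
  calc 4 * exp (-(μ * ((1 - μ) * exp y - X * exp y) / (exp ((1 - μ) * y) * y ^ 2))) *
        ((⌊exp y⌋₊ + 1) ^ (2 * (2 * S + 2)) : ℕ) ≤
        exp 2 * exp (-(μ ^ 3 * exp (μ * y) / y ^ 2)) * exp ((y + 1) * (4 * S + 4)) := by
        refine mul_le_mul (mul_le_mul h6 ?_ (exp_pos _).le (exp_pos _).le) h5 (by positivity)
          (by positivity)
        rw [exp_le_exp]
        linarith
    _ = exp (2 + (y + 1) * (4 * S + 4) - μ ^ 3 * exp (μ * y) / y ^ 2) := by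
        rw [← exp_add, ← exp_add]; ring_nf
    _ ≤ 1 := by
        rw [Real.exp_le_one_iff]; linarith

/-- condition (6) -/
theorem cond6 {N : ℕ} {μ y d m ph R Θ : ℝ} (hμ0 : 0 < μ) (hμ1 : μ ≤ 1) (hμ : μ * N = 1)
    (hy : 1 ≤ y) (hd : 0 < d) (hph : 0 ≤ ph) (hphy : ph ≤ y) (_hm : 0 ≤ m)
    {S : ℕ} (hS1 : 1 ≤ S) (hS : 8 * (N : ℝ) ^ 2 * y ≤ S) (hΘ : Θ ≤ 4 * d ^ 2)
    (e1 : 2 * y * m ≤ μ) (hR : R = (1 - μ) * ph / ((1 + 3 * μ) * d)) :
    R * (μ / (8 * d) * ((2 * d) ^ 2 / 4 + ph * (d * m) * (2 * d)) + ph * (2 * d) / S) ≤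
      μ / (8 * d) * (ph * (2 * d - d) - 2 * (μ / (8 * d)) * ph * Θ) := by
  have hSp : (0 : ℝ) < S := by exact_mod_cast hS1
  have hR0 : 0 ≤ R := by
    rw [hR]
    exact div_nonneg (mul_nonneg (by linarith) hph) (by positivity)
  obtain ⟨q, hq⟩ : ∃ q : ℝ, q = μ / (8 * d) := ⟨_, rfl⟩
  have hq0 : 0 < q := by rw [hq]; positivity
  have hqd : q * d = μ / 8 := by rw [hq]; field_simp
  have h1 : ph * (d * m) * (2 * d) ≤ μ * d ^ 2 := by
    have : 2 * ph * m ≤ μ := by nlinarith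
    nlinarith [sq_nonneg d, mul_nonneg (sq_nonneg d) (sub_nonneg.2 this)]
  have h2 : ph * (2 * d) / S ≤ 2 * μ * (q * d ^ 2) := by
    rw [div_le_iff₀ hSp]
    have h21 : 8 * y ≤ μ ^ 2 * S := by
      calc 8 * y = μ ^ 2 * (8 * (N : ℝ) ^ 2 * y) := by
            have : μ ^ 2 * (8 * (N : ℝ) ^ 2 * y) = 8 * y * (μ * N) ^ 2 := by ring
            rw [this, hμ]; ring
        _ ≤ μ ^ 2 * S := mul_le_mul_of_nonneg_left hS (by positivity)
    have h22 : 2 * μ * (q * d ^ 2) * S = d / 4 * (μ ^ 2 * S) := by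
      have : q * d ^ 2 = μ / 8 * d := by rw [sq, ← mul_assoc, hqd]
      rw [this]; ring
    rw [h22]
    nlinarith
  have h3 : q * ((2 * d) ^ 2 / 4 + ph * (d * m) * (2 * d)) + ph * (2 * d) / S ≤
      q * d ^ 2 * (1 + 3 * μ) := by
    have : q * ((2 * d) ^ 2 / 4 + ph * (d * m) * (2 * d)) ≤ q * (d ^ 2 + μ * d ^ 2) := by
      refine mul_le_mul_of_nonneg_left ?_ hq0.le
      have : (2 * d) ^ 2 / 4 = d ^ 2 := by ring
      linarith
    nlinarith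
  have h4 : 2 * q * Θ ≤ μ * d := by
    calc 2 * q * Θ ≤ 2 * q * (4 * d ^ 2) := mul_le_mul_of_nonneg_left hΘ (by positivity)
      _ = 8 * (q * d) * d := by ring
      _ = μ * d := by rw [hqd]; ring
  rw [← hq]
  calc R * (q * ((2 * d) ^ 2 / 4 + ph * (d * m) * (2 * d)) + ph * (2 * d) / S) ≤
        R * (q * d ^ 2 * (1 + 3 * μ)) := mul_le_mul_of_nonneg_left h3 hR0
    _ = q * (ph * (d - μ * d)) := by
        rw [hR]; field_simp
    _ ≤ q * (ph * (d - 2 * q * Θ)) := by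
        refine mul_le_mul_of_nonneg_left ?_ hq0.le
        exact mul_le_mul_of_nonneg_left (by linarith) hph
    _ = _ := by ring

/-- condition (7) -/
theorem cond7 {N : ℕ} {μ y d M Bd B c2 R E : ℝ} (hμ0 : 0 < μ) (hμ1 : μ ≤ 1 / 4)
    (hμ : μ * N = 1) (hy : 1 ≤ y) (hd : 0 < d) (hM : 1 ≤ M) (hB : B = d * exp (-(μ / (2 * (N + 1)) * y)))
    (hBd : Bd = M * y ^ 2) (hc2 : 0 < c2) (hR : R = c2 * (y / d)) (hE : E = (1 + μ) * (2 * d))
    {S : ℕ} (hS : (S : ℝ) ≤ 16 * N ^ 2 * y) (hyN : 8 * (N : ℝ) ≤ y)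
    (e3 : 64 * (N : ℝ) ^ 2 / (3 * μ * c2) * y * exp (-(μ / (2 * (N + 1)) * y)) ≤ 1)
    (e4 : 128 * (N : ℝ) ^ 2 / (3 * μ * c2) ≤ y) :
    (1 - μ) ^ 2 * R ≤ (1 - 1 / Bd) * ((1 - μ / (8 * d) * E) * R) - B * (μ / (8 * d) * S) ^ 2 -
      d / Bd * (2 * M * (μ / (8 * d) * S) ^ 2) := by
  have hyp : 0 < y := by linarith
  have hR0 : 0 < R := by rw [hR]; positivity
  have hNp : (0 : ℝ) < N := by
    by_contra h
    push Not at h
    nlinarith
  have hMp : 0 < M := by linarith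
  have h1 : 1 / Bd ≤ μ / 8 := by
    rw [hBd, div_le_iff₀ (by positivity)]
    have h11 : y ≤ M * y ^ 2 := by nlinarith [mul_pos hyp hyp]
    calc (1 : ℝ) = μ / 8 * (8 * N) := by linarith
      _ ≤ μ / 8 * (M * y ^ 2) := mul_le_mul_of_nonneg_left (by linarith) (by positivity)
  have h2 : μ / (8 * d) * E ≤ μ / 2 := by
    have : μ / (8 * d) * E = μ * (1 + μ) / 4 := by rw [hE]; field_simp; ring
    rw [this]; nlinarith
  have h3 : (1 - 5 * μ / 8) * R ≤ (1 - 1 / Bd) * ((1 - μ / (8 * d) * E) * R) := by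
    rw [← mul_assoc]
    refine mul_le_mul_of_nonneg_right ?_ hR0.le
    have h31 : (1 - μ / 8) * (1 - μ / 2) ≤ (1 - 1 / Bd) * (1 - μ / (8 * d) * E) :=
      mul_le_mul (by linarith) (by linarith) (by linarith) (by linarith)
    nlinarith
  have h4 : μ / (8 * d) * S ≤ 2 * N * (y / d) := by
    calc μ / (8 * d) * S ≤ μ / (8 * d) * (16 * N ^ 2 * y) :=
          mul_le_mul_of_nonneg_left hS (by positivity)
      _ = 2 * N * (y / d) * (μ * N) := by field_simp; ring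
      _ = _ := by rw [hμ]; ring
  have h5 : (μ / (8 * d) * S) ^ 2 ≤ 4 * N ^ 2 * (y / d) ^ 2 := by
    calc (μ / (8 * d) * S) ^ 2 ≤ (2 * N * (y / d)) ^ 2 := pow_le_pow_left₀ (by positivity) h4 2
      _ = _ := by ring
  have h6 : B * (μ / (8 * d) * S) ^ 2 ≤ 3 * μ / 16 * R := by
    have h61 : 4 * (N : ℝ) ^ 2 * y * exp (-(μ / (2 * (N + 1)) * y)) ≤ 3 * μ / 16 * c2 := by
      have h62 : 64 * (N : ℝ) ^ 2 / (3 * μ * c2) * y * exp (-(μ / (2 * (N + 1)) * y)) =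
          (4 * (N : ℝ) ^ 2 * y * exp (-(μ / (2 * (N + 1)) * y))) / (3 * μ / 16 * c2) := by
        field_simp; ring
      rw [h62, div_le_one (by positivity)] at e3
      exact e3
    calc B * (μ / (8 * d) * S) ^ 2 ≤ B * (4 * N ^ 2 * (y / d) ^ 2) :=
          mul_le_mul_of_nonneg_left h5 (by rw [hB]; positivity)
      _ = 4 * (N : ℝ) ^ 2 * y * exp (-(μ / (2 * (N + 1)) * y)) * (y / d) := by
          rw [hB]; field_simp
      _ ≤ 3 * μ / 16 * c2 * (y / d) := mul_le_mul_of_nonneg_right h61 (by positivity)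
      _ = _ := by rw [hR]; ring
  have h7 : d / Bd * (2 * M * (μ / (8 * d) * S) ^ 2) ≤ 3 * μ / 16 * R := by
    calc d / Bd * (2 * M * (μ / (8 * d) * S) ^ 2) ≤ d / Bd * (2 * M * (4 * N ^ 2 * (y / d) ^ 2)) := by
          refine mul_le_mul_of_nonneg_left ?_ (by rw [hBd]; positivity)
          exact mul_le_mul_of_nonneg_left h5 (by positivity)
      _ = (3 * μ / 16 * c2) * (128 * (N : ℝ) ^ 2 / (3 * μ * c2)) / d := by
          rw [hBd]; field_simp; ring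
      _ ≤ (3 * μ / 16 * c2) * y / d := by
          refine div_le_div_of_nonneg_right ?_ hd.le
          exact mul_le_mul_of_nonneg_left e4 (by positivity)
      _ = _ := by rw [hR]; ring
  have h8 : (1 - μ) ^ 2 * R ≤ (1 - μ) * R :=
    mul_le_mul_of_nonneg_right (by nlinarith) hR0.le
  have h9 : (1 - μ) * R = (1 - 5 * μ / 8) * R - 3 * μ / 16 * R - 3 * μ / 16 * R := by ring
  linarith

theorem core (t s N : ℕ) (ht : 1 ≤ t) (hN : 4 ≤ N) (μ : ℝ) (hμe : μ = 1 / (N : ℝ)) (ε : ℝ)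
    (hε : 0 < ε) (hΦ : Phi μ ≤ 1 + ε / 2) :
    ∃ y0 : ℝ, 1 ≤ y0 ∧ ∀ y, y0 ≤ y → ∃ k : ℕ, (k : ℝ) * (N + 1) ≤ (1 + ε) * μ * exp y / y ∧
      Pool.Agent.H21.UC.NumOk t s y μ N k := by
  have hNp : (4 : ℝ) ≤ N := by exact_mod_cast hN
  have hμ : μ * N = 1 := by rw [hμe]; field_simp
  have hμ0 : 0 < μ := by rw [hμe]; positivity
  have hμ4 : μ ≤ 1 / 4 := by rw [hμe]; exact one_div_le_one_div_of_le (by norm_num) hNp
  obtain ⟨c2, hc2⟩ : ∃ c2 : ℝ, c2 = (1 - μ) ^ 2 / ((1 + μ) ^ 2 * (1 + 3 * μ)) := ⟨_, rfl⟩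
  have h1μ : 0 < 1 - μ := by linarith
  have hc2p : 0 < c2 := by rw [hc2]; positivity
  have htp : (1 : ℝ) ≤ t := by exact_mod_cast ht
  have a1 := ev_one 1 (2 / μ) hμ0
  have a3 := ev_one 1 (64 * (N : ℝ) ^ 2 / (3 * μ * c2)) (show (0 : ℝ) < μ / (2 * (N + 1)) by positivity)
  have a4 := eventually_ge_atTop (128 * (N : ℝ) ^ 2 / (3 * μ * c2))
  have a5 := ev_one (1 + t ^ 2) (2 * (4 ^ (N + 2) * ((s : ℝ) + t ^ 2) * (16 * N ^ 2) *
    (128 * N ^ 2) ^ (t ^ 2))) (show (0 : ℝ) < μ / 2 by positivity)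
  have a6 := ev_pow 4 (138 * (N : ℝ) ^ 5) hμ0
  have a7 := ev_pow 1 ((N + 1) * 2 / (ε * μ)) (show (0 : ℝ) < 1 by norm_num)
  have a8 := eventually_ge_atTop (8 * (N : ℝ))
  obtain ⟨y0, hy0⟩ := Filter.eventually_atTop.1 (a1.and (a3.and (a4.and (a5.and (a6.and
    (a7.and a8))))))
  refine ⟨max y0 1, le_max_right _ _, fun y hy => ?_⟩
  obtain ⟨a1, a3, a4, a5, a6, a7, a8⟩ := hy0 y ((le_max_left _ _).trans hy)
  clear hy0
  have y1 : 1 ≤ y := (le_max_right _ _).trans hy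
  have yp : 0 < y := by linarith
  simp only [pow_one, one_mul] at a1 a3 a7
  obtain ⟨d, hd⟩ : ∃ d : ℝ, d = exp y := ⟨_, rfl⟩
  have hdp : 0 < d := by rw [hd]; exact exp_pos _
  obtain ⟨M, hM⟩ : ∃ M : ℝ, M = exp ((1 - μ) * y) := ⟨_, rfl⟩
  have hM1 : 1 ≤ M := by rw [hM]; exact Real.one_le_exp (by positivity)
  have hMp : 0 < M := by linarith
  have hMd : M = d * exp (-(μ * y)) := by rw [hM, hd, ← exp_add]; ring_nf
  obtain ⟨ph, hph⟩ : ∃ ph : ℝ, ph = (1 - μ) * y / (1 + μ) ^ 2 := ⟨_, rfl⟩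
  have hph0 : 0 < ph := by rw [hph]; positivity
  have hphy : ph ≤ y := by
    rw [hph, div_le_iff₀ (by positivity)]
    nlinarith [mul_pos hμ0 yp, mul_pos (mul_pos hμ0 hμ0) yp]
  have hMph : exp ((1 + μ) ^ 2 * ph) = M := by
    rw [hM, hph]; congr 1; field_simp
  obtain ⟨S, hSd⟩ : ∃ S : ℕ, S = ⌈8 * (N : ℝ) ^ 2 * y⌉₊ := ⟨_, rfl⟩
  have hN2y : (1 : ℝ) ≤ N ^ 2 * y := by nlinarith
  have hSl : 8 * (N : ℝ) ^ 2 * y ≤ S := by rw [hSd]; exact Nat.le_ceil _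
  have hSu : (S : ℝ) ≤ 16 * N ^ 2 * y := by
    have : (S : ℝ) ≤ 8 * (N : ℝ) ^ 2 * y + 1 := by
      rw [hSd]; exact (Nat.ceil_lt_add_one (by positivity)).le
    linarith
  have hS1 : 1 ≤ S := by
    have : (1 : ℝ) ≤ S := by linarith
    exact_mod_cast this
  have hSp : (0 : ℝ) < S := by exact_mod_cast hS1
  obtain ⟨E, hE⟩ : ∃ E : ℝ, E = (1 + μ) * (2 * d) := ⟨_, rfl⟩
  have hEp : 0 < E := by rw [hE]; positivity
  obtain ⟨κ, hκ⟩ : ∃ κ : ℝ, κ = 1 / (8 * (S : ℝ)) := ⟨_, rfl⟩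
  have hκp : 0 < κ := by rw [hκ]; positivity
  obtain ⟨h, hh⟩ : ∃ h : ℝ, h = 2 * d ^ 2 * E ^ (2 * t - 2) * κ ^ (t ^ 2) := ⟨_, rfl⟩
  have hhp : 0 < h := by rw [hh]; positivity
  obtain ⟨Θ, hΘ⟩ : ∃ Θ : ℝ, Θ = κ * E ^ 2 * S + h / (E ^ (2 * t - 2) * κ ^ t ^ 2) := ⟨_, rfl⟩
  have hΘ4 : Θ ≤ 4 * d ^ 2 := by
    have h1 : κ * E ^ 2 * S = (1 + μ) ^ 2 * d ^ 2 / 2 := by
      rw [hκ, hE]; field_simp; ring
    have h2 : h / (E ^ (2 * t - 2) * κ ^ t ^ 2) = 2 * d ^ 2 := by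
      rw [hh, div_eq_iff (by positivity)]; ring
    have h3 : (1 + μ) ^ 2 ≤ 4 := by nlinarith
    have h4 : (1 + μ) ^ 2 * d ^ 2 ≤ 4 * d ^ 2 := mul_le_mul_of_nonneg_right h3 (sq_nonneg d)
    rw [hΘ, h1, h2]
    linarith
  obtain ⟨R, hR⟩ : ∃ R : ℝ, R = (1 - μ) * ph / ((1 + 3 * μ) * d) := ⟨_, rfl⟩
  have hR2 : R = c2 * (y / d) := by
    rw [hR, hph, hc2]; field_simp
  have hR0 : 0 < R := by rw [hR2]; positivity
  obtain ⟨τ, hτ⟩ : ∃ τ : ℝ, τ = (1 - μ) ^ 2 * R := ⟨_, rfl⟩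
  have hτ0 : 0 < τ := by rw [hτ]; positivity
  have hx : 0 < 1 - μ - μ ^ 2 := by nlinarith
  obtain ⟨L, hL⟩ : ∃ L : ℝ, L = Real.log (1 / (1 - μ - μ ^ 2)) := ⟨_, rfl⟩
  have hL1 : L ≤ (μ + μ ^ 2) / (1 - μ - μ ^ 2) := by
    have := Real.log_le_sub_one_of_pos (show 0 < 1 / (1 - μ - μ ^ 2) by positivity)
    rw [← hL] at this
    have h2 : 1 / (1 - μ - μ ^ 2) - 1 = (μ + μ ^ 2) / (1 - μ - μ ^ 2) := by
      field_simp; ring
    linarith
  have hL0 : 0 ≤ L := by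
    rw [hL]
    apply Real.log_nonneg
    rw [le_div_iff₀ hx]
    nlinarith
  obtain ⟨D, hD⟩ : ∃ D : ℝ, D = (1 - μ / 2) * (N * τ) := ⟨_, rfl⟩
  have hD0 : 0 < D := by
    rw [hD]
    have : 0 < 1 - μ / 2 := by linarith
    positivity
  obtain ⟨k, hk⟩ : ∃ k : ℕ, k = ⌈L / D⌉₊ := ⟨_, rfl⟩
  have hk1 : L ≤ k * D := by
    have : L / D ≤ k := by rw [hk]; exact Nat.le_ceil _
    rwa [div_le_iff₀ hD0] at this
  have hk2 : (k : ℝ) ≤ L / D + 1 := by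
    rw [hk]; exact (Nat.ceil_lt_add_one (by positivity)).le
  refine ⟨k, ?_, μ, μ / (8 * d), 2 * d, ph, M, E, κ, exp ((1 - μ / (2 * (N + 1))) * y), M * y ^ 2,
    h, Θ, R, τ, μ, S, hμ0, by linarith, by positivity, by positivity, hph0, hκp, exp_pos _, ?_, hhp,
    hτ0, hμ0, by linarith, hS1, hMph.symm, hE, ?_, ?_, ?_, ?_, hΘ, ?_, ?_, ?_⟩
  · -- the number of cycles
    have h1 : (k : ℝ) * (N + 1) ≤ L / D * (N + 1) + (N + 1) := by
      calc (k : ℝ) * (N + 1) ≤ (L / D + 1) * (N + 1) :=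
            mul_le_mul_of_nonneg_right hk2 (by positivity)
        _ = _ := by ring
    have h2 : (N + 1 : ℝ) ≤ ε / 2 * μ * (d / y) := by
      rw [← hd] at a7
      have h21 : (N + 1 : ℝ) * 2 / (ε * μ) * y = (N + 1) * (2 * y / (ε * μ)) := by ring
      rw [h21] at a7
      have h22 : 0 < 2 * y / (ε * μ) := by positivity
      have h23 : (N + 1 : ℝ) ≤ d / (2 * y / (ε * μ)) := by rwa [le_div_iff₀ h22]
      have h24 : d / (2 * y / (ε * μ)) = ε / 2 * μ * (d / y) := by field_simp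
      linarith
    have h3 : L / D * (N + 1) ≤ μ * (d / y) * Phi μ := by
      have h31 : L / D * (N + 1) ≤ (μ + μ ^ 2) / (1 - μ - μ ^ 2) / D * (N + 1) := by
        refine mul_le_mul_of_nonneg_right ?_ (by positivity)
        exact div_le_div_of_nonneg_right hL1 hD0.le
      have h32 : (μ + μ ^ 2) / (1 - μ - μ ^ 2) / D * (N + 1) = μ * (d / y) * Phi μ := by
        have hN' : (N : ℝ) = 1 / μ := by
          rw [eq_div_iff hμ0.ne']; linarith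
        have h33 : 0 < 1 - μ / 2 := by linarith
        rw [hD, hτ, hR2, hc2, hN', Phi]
        field_simp
      linarith
    have h4 : μ * (d / y) * Phi μ ≤ μ * (d / y) * (1 + ε / 2) :=
      mul_le_mul_of_nonneg_left hΦ (by positivity)
    rw [← hd]
    calc (k : ℝ) * (N + 1) ≤ L / D * (N + 1) + (N + 1) := h1
      _ ≤ μ * (d / y) * (1 + ε / 2) + ε / 2 * μ * (d / y) := by linarith
      _ = (1 + ε) * μ * d / y := by ring
  · -- `1 ≤ Bd`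
    exact one_le_mul_of_one_le_of_one_le hM1 (one_le_pow₀ y1)
  · -- `q M`
    have h1 : μ / (8 * d) * M = μ / 8 * exp (-(μ * y)) := by rw [hMd]; field_simp
    rw [h1]
    have h2 : exp (-(μ * y)) ≤ 1 := by
      rw [Real.exp_le_one_iff]
      have : 0 < μ * y := by positivity
      linarith
    calc μ / 8 * exp (-(μ * y)) ≤ μ / 8 * 1 := mul_le_mul_of_nonneg_left h2 (by positivity)
      _ ≤ μ / 2 := by linarith
  · -- `q E`
    have : μ / (8 * d) * E = μ * (1 + μ) / 4 := by rw [hE]; field_simp; ring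
    rw [this]
    have h2 : μ * (1 + μ) ≤ μ * 2 := mul_le_mul_of_nonneg_left (by linarith) hμ0.le
    linarith
  · rw [← hd, hE]
    have h2 : 0 < μ * d := by positivity
    linarith
  · rw [hM, hh, hE, hκ, hd]
    exact cond4 ht (by omega) hμ0 (by linarith) y1 hS1 hSu a5
  · -- (6)
    rw [← hd]
    have := cond6 (N := N) hμ0 (by linarith) hμ y1 hdp hph0.le hphy (exp_pos (-(μ * y))).le hS1 hSl hΘ4
      (by
        have h2 : 2 / μ * y * exp (-(μ * y)) = (2 * y * exp (-(μ * y))) / μ := by ring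
        rw [h2, div_le_one hμ0] at a1
        exact a1) hR
    rw [← hMd] at this
    exact this
  · -- (7)
    rw [← hd, hτ]
    refine cond7 (N := N) hμ0 hμ4 hμ y1 hdp hM1 ?_ rfl hc2p hR2 hE hSu a8 a3 a4
    rw [hd, ← exp_add]; ring_nf
  · -- (8)
    rw [hM]
    refine cond8 (N := N) (by omega) hμ0 y1 hSu hμ ?_ a6
    have h1 : L ≤ (1 - μ / 2) * (k * N * τ) := by
      calc L ≤ k * D := hk1
        _ = _ := by rw [hD]; ring
    calc exp (-((1 - μ / 2) * (k * N * τ))) ≤ exp (-L) := by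
          rw [exp_le_exp]; linarith
      _ = 1 - μ - μ ^ 2 := by
          rw [hL, one_div, Real.log_inv, neg_neg, Real.exp_log hx]

theorem t_NUM2 : Pool.Agent.H21.UC.S_NUM2 := by
  intro t s ht ε hε
  obtain ⟨N, hN, hΦ⟩ := exists_N ε hε
  have hNp : (4 : ℝ) ≤ N := by exact_mod_cast hN
  obtain ⟨y0, hy0, h⟩ := core t s N ht hN (1 / (N : ℝ)) rfl ε hε hΦ
  refine ⟨1 / (N : ℝ), by positivity, ?_, N, y0, hy0, h⟩
  rw [div_lt_one (by linarith)]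
  linarith

end Pool.Agent.H10.UC
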